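import Pool.Agent.MP_a4a062_nt.C2.P4

set_option autoImplicit false

namespace Pool.Agent.Results.MP_a4a062_nt.CharTwoChowla

open Polynomial

/-- Chowla's conjecture in progressions for polynomials over every finite field of
characteristic two, uniformly in the shifts. -/
theorem result (k : Type*) [Field k] [Finite k] [CharP k 2] (K : ℕ) (hK : 0 < K) (M : k[X])
    (hM : M ≠ 0) (ε : ℝ) (hε : 0 < ε) :
    ∃ n₀ : ℕ, ∀ n : ℕ, n₀ ≤ n → ∀ (h : Fin K → k[X]) (a : k[X]),
      Function.Injective h → (∀ j, (h j).degree < n) →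
      |∑ᶠ f ∈ {f : k[X] | f.Monic ∧ f.natDegree = n ∧ M ∣ f - a},
        ∏ j, (-1 : ℝ) ^ (UniqueFactorizationMonoid.factors (f + h j)).card|
      ≤ ε * (Nat.card k : ℝ) ^ n :=
  Pool.Agent.MP_a4a062_nt.C2.main k K hK M hM ε hε

end Pool.Agent.Results.MP_a4a062_nt.CharTwoChowla
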