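import Pool.Agent.MP_a4a062_nt.H4O.D

set_option autoImplicit false

open Polynomial

namespace Pool.Agent.Results.MP_a4a062_nt.ChowlaOddChar

/-- Chowla's conjecture in progressions over `k[X]`, `k` any finite field of odd characteristic,
on average over the degree. -/
theorem result (k : Type) [Field k] [Finite k] (h2 : ringChar k ≠ 2) (H : Finset k[X])
    (hH : H.Nonempty) (M a : k[X]) (hM : M ≠ 0) (ε : ℝ) (hε : 0 < ε) :
    ∃ T₀ : ℕ, ∀ T, T₀ ≤ T → ∀ N : ℕ, ∑ n ∈ Finset.Ico N (N + T),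
      |∑ᶠ f ∈ {f : k[X] | f.Monic ∧ f.natDegree = n ∧ M ∣ f - a},
          ∏ h ∈ H, (-1 : ℝ) ^ (UniqueFactorizationMonoid.factors (f + h)).card| /
        (Nat.card k : ℝ) ^ n ≤ ε * T :=
  Pool.Agent.H4O.main k h2 H hH M a hM ε hε

end Pool.Agent.Results.MP_a4a062_nt.ChowlaOddChar
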